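import Pool.Agent.H60.CM.Targets

/-!
# Stable surfaces of constant mean curvature spanning a circle: row STR
-/

set_option autoImplicit false

open scoped Matrix

namespace Pool.Agent.H59.CM

open Pool.Agent.H60.CM

/-- the normal direction -/
theorem cr (X0 X1 n : V3) (hu : n ⬝ᵥ n = 1) (h0 : n ⬝ᵥ X0 = 0) (h1 : n ⬝ᵥ X1 = 0) (i : Fin 3) :
    (X0 ⨯₃ X1) i = ((X0 ⨯₃ X1) ⬝ᵥ n) * n i := by
  simp only [Matrix.vec3_dotProduct] at hu h0 h1 ⊢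
  fin_cases i
  · simp [cross_apply]
    linear_combination (-(X0 1 * X1 2 - X0 2 * X1 1)) * hu +
      (-(n 1) * X0 2 + n 2 * X0 1) * h1 + (n 1 * X1 2 - n 2 * X1 1) * h0
  · simp [cross_apply]
    linear_combination (-(X0 2 * X1 0 - X0 0 * X1 2)) * hu +
      (-(n 2) * X0 0 + n 0 * X0 2) * h1 + (n 2 * X1 0 - n 0 * X1 2) * h0
  · simp [cross_apply]
    linear_combination (-(X0 0 * X1 1 - X0 1 * X1 0)) * hu +
      (-(n 0) * X0 1 + n 1 * X0 0) * h1 + (n 0 * X1 1 - n 1 * X1 0) * h0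

/-- Cramer's rule -/
theorem cram (X0 X1 n v : V3) (i : Fin 3) :
    ((X0 ⨯₃ X1) ⬝ᵥ n) * v i = ((v ⨯₃ X1) ⬝ᵥ n) * X0 i + ((X0 ⨯₃ v) ⬝ᵥ n) * X1 i +
      ((X0 ⨯₃ X1) ⬝ᵥ v) * n i := by
  simp only [Matrix.vec3_dotProduct]
  fin_cases i <;> simp [cross_apply] <;> ring

theorem trip0 (X0 X1 : V3) (i : Fin 3) :
    ((X0 ⨯₃ X1) ⨯₃ X0) i = (X0 ⬝ᵥ X0) * X1 i - (X0 ⬝ᵥ X1) * X0 i := by
  simp only [Matrix.vec3_dotProduct]
  fin_cases i <;> simp [cross_apply] <;> ring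

theorem trip1 (X0 X1 : V3) (i : Fin 3) :
    ((X0 ⨯₃ X1) ⨯₃ X1) i = (X0 ⬝ᵥ X1) * X1 i - (X1 ⬝ᵥ X1) * X0 i := by
  simp only [Matrix.vec3_dotProduct]
  fin_cases i <;> simp [cross_apply] <;> ring

theorem lag (X0 X1 : V3) : (X0 ⨯₃ X1) ⬝ᵥ (X0 ⨯₃ X1) =
    (X0 ⬝ᵥ X0) * (X1 ⬝ᵥ X1) - (X0 ⬝ᵥ X1) ^ 2 := by
  simp only [Matrix.vec3_dotProduct]
  simp [cross_apply]
  ring

/-- the product with a multiple of `n` -/
theorem cr_smul (c n v : V3) (w : ℝ) (h : ∀ i, c i = w * n i) (i : Fin 3) :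
    (c ⨯₃ v) i = w * (n ⨯₃ v) i := by
  have h0 := h 0
  have h1 := h 1
  have h2 := h 2
  fin_cases i <;> simp [cross_apply, h0, h1, h2] <;> ring

/-- linearity of the cross product -/
theorem cr_lin (n v X0 X1 : V3) (w a b : ℝ) (h : ∀ i, w * v i = a * X0 i + b * X1 i)
    (i : Fin 3) : w * (n ⨯₃ v) i = a * (n ⨯₃ X0) i + b * (n ⨯₃ X1) i := by
  have h0 := h 0
  have h1 := h 1
  have h2 := h 2
  fin_cases i
  · simp [cross_apply]; linear_combination n 1 * h2 - n 2 * h1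
  · simp [cross_apply]; linear_combination n 2 * h0 - n 0 * h2
  · simp [cross_apply]; linear_combination n 0 * h1 - n 1 * h0

theorem dot_lin (u v X0 X1 : V3) (w a b : ℝ) (h : ∀ i, w * v i = a * X0 i + b * X1 i) :
    w * (u ⬝ᵥ v) = a * (u ⬝ᵥ X0) + b * (u ⬝ᵥ X1) := by
  simp only [Matrix.vec3_dotProduct]
  linear_combination u 0 * h 0 + u 1 * h 1 + u 2 * h 2

/-- real algebra: the two formulas for the star operator, one component -/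
theorem k_alg (w H g00 g01 g11 al be ga si x0 x1 nx0 nx1 nn0 nn1 v0 v1 : ℝ) (hw : w ≠ 0)
    (hH : al + be = -2 * H * w) (hs : si * g00 + be * g01 = al * g01 + ga * g11)
    (h0 : w * nx0 = g00 * x1 - g01 * x0) (h1 : w * nx1 = g01 * x1 - g11 * x0)
    (e0 : w * v0 = al * x0 + ga * x1) (e1 : w * v1 = si * x0 + be * x1)
    (f0 : w * nn0 = al * nx0 + ga * nx1) (f1 : w * nn1 = si * nx0 + be * nx1) :
    w * (-2 * H * nx0 - nn0) = g00 * v1 - g01 * v0 ∧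
    w * (-2 * H * nx1 - nn1) = -(g11 * v0 - g01 * v1) := by
  constructor
  · refine mul_left_cancel₀ hw ?_
    linear_combination (-(w * nx0)) * hH - w * f0 + be * h0 - ga * h1 - g00 * e1 + g01 * e0 -
      x0 * hs
  · refine mul_left_cancel₀ hw ?_
    linear_combination (-(w * nx1)) * hH - w * f1 + al * h1 - si * h0 + g11 * e0 - g01 * e1 -
      x1 * hs

theorem b_alg (w g00 g01 g11 x0 x1 nx0 nx1 : ℝ) (hw : w ≠ 0) (hw2 : w ^ 2 = g00 * g11 - g01 ^ 2)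
    (h0 : w * nx0 = g00 * x1 - g01 * x0) (h1 : w * nx1 = g01 * x1 - g11 * x0) :
    w * x1 = g11 * nx0 - g01 * nx1 ∧ w * x0 = g01 * nx0 - g00 * nx1 := by
  constructor
  · refine mul_left_cancel₀ hw ?_
    linear_combination x1 * hw2 - g11 * h0 + g01 * h1
  · refine mul_left_cancel₀ hw ?_
    linear_combination x0 * hw2 - g01 * h0 + g00 * h1

theorem pf_STR : T_STR := by
  intro X0 X1 n n0 n1 H hF k b h0 h1
  obtain ⟨him, hu, hx0, hx1, hn0, hn1, hsym, hcmc⟩ := hF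
  set w : ℝ := (X0 ⨯₃ X1) ⬝ᵥ n with hw
  have hc : ∀ i, (X0 ⨯₃ X1) i = w * n i := cr X0 X1 n hu hx0 hx1
  have hw0 : w ≠ 0 := by
    intro h
    apply him
    funext i
    rw [hc i, h, zero_mul]
    rfl
  set g00 : ℝ := X0 ⬝ᵥ X0 with hg00
  set g01 : ℝ := X0 ⬝ᵥ X1 with hg01
  set g11 : ℝ := X1 ⬝ᵥ X1 with hg11
  have hcc : (X0 ⨯₃ X1) ⬝ᵥ (X0 ⨯₃ X1) = w ^ 2 := by
    rw [Matrix.vec3_dotProduct] at hu ⊢
    rw [hc 0, hc 1, hc 2]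
    linear_combination w ^ 2 * hu
  have hw2 : w ^ 2 = g00 * g11 - g01 ^ 2 := by rw [← hcc, lag]
  have hv : ∀ v : V3, n ⬝ᵥ v = 0 → (X0 ⨯₃ X1) ⬝ᵥ v = 0 := by
    intro v hv
    rw [Matrix.vec3_dotProduct] at hv ⊢
    rw [hc 0, hc 1, hc 2]
    linear_combination w * hv
  set al : ℝ := (n0 ⨯₃ X1) ⬝ᵥ n with hal
  set be : ℝ := (X0 ⨯₃ n1) ⬝ᵥ n with hbe
  set ga : ℝ := (X0 ⨯₃ n0) ⬝ᵥ n with hga
  set si : ℝ := (n1 ⨯₃ X1) ⬝ᵥ n with hsi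
  have e0 : ∀ i, w * n0 i = al * X0 i + ga * X1 i := by
    intro i
    rw [hw, cram, hv n0 hn0]; ring
  have e1 : ∀ i, w * n1 i = si * X0 i + be * X1 i := by
    intro i
    rw [hw, cram, hv n1 hn1]; ring
  have hH : al + be = -2 * H * w := by
    have h2 : (n0 ⨯₃ X1 + X0 ⨯₃ n1) ⬝ᵥ n = ((-2 * H) • (X0 ⨯₃ X1)) ⬝ᵥ n := by rw [hcmc]
    rw [add_dotProduct, smul_dotProduct, smul_eq_mul] at h2
    exact h2
  have hs : si * g00 + be * g01 = al * g01 + ga * g11 := by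
    have h2 := dot_lin X0 n1 X0 X1 w si be e1
    have h3 := dot_lin X1 n0 X0 X1 w al ga e0
    have h4 : X1 ⬝ᵥ X0 = g01 := dotProduct_comm _ _
    rw [h4] at h3
    rw [hsym] at h2
    linarith
  have m0 : ∀ i, w * (n ⨯₃ X0) i = g00 * X1 i - g01 * X0 i := by
    intro i
    rw [← cr_smul (X0 ⨯₃ X1) n X0 w hc, trip0]
  have m1 : ∀ i, w * (n ⨯₃ X1) i = g01 * X1 i - g11 * X0 i := by
    intro i
    rw [← cr_smul (X0 ⨯₃ X1) n X1 w hc, trip1]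
  have f0 := cr_lin n n0 X0 X1 w al ga e0
  have f1 := cr_lin n n1 X0 X1 w si be e1
  have K : ∀ i, w * (-2 * H * (n ⨯₃ X0) i - (n ⨯₃ n0) i) = g00 * n1 i - g01 * n0 i ∧
      w * (-2 * H * (n ⨯₃ X1) i - (n ⨯₃ n1) i) = -(g11 * n0 i - g01 * n1 i) := fun i =>
    k_alg w H g00 g01 g11 al be ga si (X0 i) (X1 i) _ _ _ _ _ _ hw0 hH hs (m0 i) (m1 i)
      (e0 i) (e1 i) (f0 i) (f1 i)
  have B : ∀ i, w * X1 i = g11 * (n ⨯₃ X0) i - g01 * (n ⨯₃ X1) i ∧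
      w * X0 i = g01 * (n ⨯₃ X0) i - g00 * (n ⨯₃ X1) i := fun i =>
    b_alg w g00 g01 g11 (X0 i) (X1 i) _ _ hw0 hw2 (m0 i) (m1 i)
  set F0 : ℝ := (b ⨯₃ X0) ⬝ᵥ n + k ⬝ᵥ n0 with hF0
  set F1 : ℝ := (b ⨯₃ X1) ⬝ᵥ n + k ⬝ᵥ n1 with hF1
  -- the components
  have t0 : (b ⨯₃ X0) ⬝ᵥ n = -(b ⬝ᵥ (n ⨯₃ X0)) := by
    simp only [Matrix.vec3_dotProduct]
    simp [cross_apply]
    ring
  have t1 : (b ⨯₃ X1) ⬝ᵥ n = -(b ⬝ᵥ (n ⨯₃ X1)) := by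
    simp only [Matrix.vec3_dotProduct]
    simp [cross_apply]
    ring
  have om1 : w * (∑ i : Fin 3, (b - (2 * H) • (k ⨯₃ n)) i * X1 i +
      ∑ i : Fin 3, (-(k ⨯₃ n)) i * n1 i) = -(g11 * F0 - g01 * F1) := by
    have r1 : ∑ i : Fin 3, (b - (2 * H) • (k ⨯₃ n)) i * X1 i +
        ∑ i : Fin 3, (-(k ⨯₃ n)) i * n1 i =
        b ⬝ᵥ X1 + ∑ i : Fin 3, k i * (-2 * H * (n ⨯₃ X1) i - (n ⨯₃ n1) i) := by
      simp only [Matrix.vec3_dotProduct, Fin.sum_univ_three]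
      simp [cross_apply]
      ring
    rw [r1, hF0, hF1, t0, t1]
    simp only [Matrix.vec3_dotProduct, Fin.sum_univ_three]
    linear_combination b 0 * (B 0).1 + b 1 * (B 1).1 + b 2 * (B 2).1 + k 0 * (K 0).2 +
      k 1 * (K 1).2 + k 2 * (K 2).2
  have om0 : w * (∑ i : Fin 3, (b - (2 * H) • (k ⨯₃ n)) i * X0 i +
      ∑ i : Fin 3, (-(k ⨯₃ n)) i * n0 i) = g00 * F1 - g01 * F0 := by
    have r1 : ∑ i : Fin 3, (b - (2 * H) • (k ⨯₃ n)) i * X0 i +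
        ∑ i : Fin 3, (-(k ⨯₃ n)) i * n0 i =
        b ⬝ᵥ X0 + ∑ i : Fin 3, k i * (-2 * H * (n ⨯₃ X0) i - (n ⨯₃ n0) i) := by
      simp only [Matrix.vec3_dotProduct, Fin.sum_univ_three]
      simp [cross_apply]
      ring
    rw [r1, hF0, hF1, t0, t1]
    simp only [Matrix.vec3_dotProduct, Fin.sum_univ_three]
    linear_combination b 0 * (B 0).2 + b 1 * (B 1).2 + b 2 * (B 2).2 + k 0 * (K 0).1 +
      k 1 * (K 1).1 + k 2 * (K 2).1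
  -- both sides
  have hl : (h0 • X1 - h1 • X0) ⬝ᵥ (F0 • X1 - F1 • X0) =
      h0 * (F0 * g11 - F1 * g01) - h1 * (F0 * g01 - F1 * g00) := by
    simp only [hg00, hg01, hg11, Matrix.vec3_dotProduct]
    simp
    ring
  have hr : ∑ i : Fin 3, (b - (2 * H) • (k ⨯₃ n)) i * ((h0 * X1 i - h1 * X0 i) / w) +
      ∑ i : Fin 3, (-(k ⨯₃ n)) i * ((h0 * n1 i - h1 * n0 i) / w) =
      (h0 * (∑ i : Fin 3, (b - (2 * H) • (k ⨯₃ n)) i * X1 i +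
        ∑ i : Fin 3, (-(k ⨯₃ n)) i * n1 i) -
      h1 * (∑ i : Fin 3, (b - (2 * H) • (k ⨯₃ n)) i * X0 i +
        ∑ i : Fin 3, (-(k ⨯₃ n)) i * n0 i)) / w := by
    simp only [Fin.sum_univ_three]
    ring
  unfold bil brk
  rw [hcc, hl, hr]
  rw [← mul_right_inj' (pow_ne_zero 2 hw0)]
  have r2 : w ^ 2 * -((h0 * (F0 * g11 - F1 * g01) - h1 * (F0 * g01 - F1 * g00)) / w ^ 2) =
      -(h0 * (F0 * g11 - F1 * g01) - h1 * (F0 * g01 - F1 * g00)) := by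
    field_simp
  have r3 : ∀ z : ℝ, w ^ 2 * (z / w) = w * z := fun z => by field_simp
  rw [r2, r3]
  linear_combination (-h0) * om1 + h1 * om0

end Pool.Agent.H59.CM
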